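import Mathlib

open Polynomial

namespace Pool.Agent.Results.MP_512501_an.Counterexample

/-- The polynomial (x+1)^2 (x+93/100)^5 (x-23/100)^60. -/
noncomputable def Q : ℝ[X] :=
  (X - C (-1)) ^ 2 * (X - C (-93 / 100)) ^ 5 * (X - C (23 / 100)) ^ 60

lemma Q_eval (x : ℝ) : Q.eval x = (x + 1) ^ 2 * (x + 93 / 100) ^ 5 * (x - 23 / 100) ^ 60 := by
  simp only [Q, eval_mul, eval_pow, eval_sub, eval_X, eval_C]
  ring

lemma Q_deriv_eval (x : ℝ) : Q.derivative.eval x =
    2 * (x + 1) * (x + 93 / 100) ^ 5 * (x - 23 / 100) ^ 60
      + 5 * (x + 1) ^ 2 * (x + 93 / 100) ^ 4 * (x - 23 / 100) ^ 60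
      + 60 * (x + 1) ^ 2 * (x + 93 / 100) ^ 5 * (x - 23 / 100) ^ 59 := by
  have e1 : x - (-1) = x + 1 := by ring
  have e2 : x - (-93 / 100) = x + 93 / 100 := by ring
  simp only [Q, derivative_mul, derivative_pow, derivative_sub, derivative_X, derivative_C,
    eval_add, eval_mul, eval_pow, eval_sub, eval_X, eval_C, sub_zero, mul_one, e1, e2]
  generalize x + 1 = a
  generalize x + 93 / 100 = b
  generalize x - 23 / 100 = c
  norm_num
  ring

lemma Q_roots : Q.roots = 2 • ({-1} : Multiset ℝ) + 5 • {-93 / 100} + 60 • {23 / 100} := by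
  unfold Q
  rw [roots_mul, roots_mul, roots_pow, roots_pow, roots_pow, roots_X_sub_C, roots_X_sub_C,
    roots_X_sub_C]
  · exact mul_ne_zero (pow_ne_zero _ (X_sub_C_ne_zero _)) (pow_ne_zero _ (X_sub_C_ne_zero _))
  · exact mul_ne_zero (mul_ne_zero (pow_ne_zero _ (X_sub_C_ne_zero _))
      (pow_ne_zero _ (X_sub_C_ne_zero _))) (pow_ne_zero _ (X_sub_C_ne_zero _))

lemma Q_natDegree : Q.natDegree = 67 := by
  unfold Q
  rw [natDegree_mul, natDegree_mul, natDegree_pow, natDegree_pow, natDegree_pow,
    natDegree_X_sub_C, natDegree_X_sub_C, natDegree_X_sub_C]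
  · exact pow_ne_zero _ (X_sub_C_ne_zero _)
  · exact pow_ne_zero _ (X_sub_C_ne_zero _)
  · exact mul_ne_zero (pow_ne_zero _ (X_sub_C_ne_zero _)) (pow_ne_zero _ (X_sub_C_ne_zero _))
  · exact pow_ne_zero _ (X_sub_C_ne_zero _)

lemma bound_on (l r x a b c : ℝ) (hl : l ≤ x) (hr : x ≤ r)
    (ha1 : -a ≤ l + 1) (ha2 : r + 1 ≤ a) (hb1 : -b ≤ l + 93 / 100) (hb2 : r + 93 / 100 ≤ b)
    (hc1 : -c ≤ l - 23 / 100) (hc2 : r - 23 / 100 ≤ c) :
    |Q.eval x| ≤ a ^ 2 * b ^ 5 * c ^ 60 := by
  rw [Q_eval, abs_mul, abs_mul, abs_pow, abs_pow, abs_pow]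
  have h1 : |x + 1| ≤ a := abs_le.mpr ⟨by linarith, by linarith⟩
  have h2 : |x + 93 / 100| ≤ b := abs_le.mpr ⟨by linarith, by linarith⟩
  have h3 : |x - 23 / 100| ≤ c := abs_le.mpr ⟨by linarith, by linarith⟩
  have hb : 0 ≤ b := (abs_nonneg _).trans h2
  gcongr

lemma Q_one : |Q.eval 1| = 2 ^ 2 * (193 / 100) ^ 5 * (77 / 100) ^ 60 := by
  rw [Q_eval, abs_of_nonneg (by positivity)]
  norm_num

lemma dominated (x : ℝ) (h0 : -1 ≤ x) (h1 : x ≤ 1) : |Q.eval x| ≤ |Q.eval 1| := by
  rw [Q_one]
  rcases le_total x (-497 / 500) with h | h2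
  · exact (bound_on (-1 / 1) (-497 / 500) x (3 / 500) (7 / 100) (123 / 100) (by linarith) h (by norm_num) (by norm_num)
      (by norm_num) (by norm_num) (by norm_num) (by norm_num)).trans (by norm_num)
  rcases le_total x (-991 / 1000) with h | h3
  · exact (bound_on (-497 / 500) (-991 / 1000) x (9 / 1000) (8 / 125) (153 / 125) (by linarith) h (by norm_num) (by norm_num)
      (by norm_num) (by norm_num) (by norm_num) (by norm_num)).trans (by norm_num)
  rcases le_total x (-989 / 1000) with h | h4
  · exact (bound_on (-991 / 1000) (-989 / 1000) x (11 / 1000) (61 / 1000) (1221 / 1000) (by linarith) h (by norm_num) (by norm_num)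
      (by norm_num) (by norm_num) (by norm_num) (by norm_num)).trans (by norm_num)
  rcases le_total x (-79 / 80) with h | h5
  · exact (bound_on (-989 / 1000) (-79 / 80) x (1 / 80) (59 / 1000) (1219 / 1000) (by linarith) h (by norm_num) (by norm_num)
      (by norm_num) (by norm_num) (by norm_num) (by norm_num)).trans (by norm_num)
  rcases le_total x (-493 / 500) with h | h6
  · exact (bound_on (-79 / 80) (-493 / 500) x (7 / 500) (23 / 400) (487 / 400) (by linarith) h (by norm_num) (by norm_num)
      (by norm_num) (by norm_num) (by norm_num) (by norm_num)).trans (by norm_num)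
  rcases le_total x (-1969 / 2000) with h | h7
  · exact (bound_on (-493 / 500) (-1969 / 2000) x (31 / 2000) (7 / 125) (152 / 125) (by linarith) h (by norm_num) (by norm_num)
      (by norm_num) (by norm_num) (by norm_num) (by norm_num)).trans (by norm_num)
  rcases le_total x (-983 / 1000) with h | h8
  · exact (bound_on (-1969 / 2000) (-983 / 1000) x (17 / 1000) (109 / 2000) (2429 / 2000) (by linarith) h (by norm_num) (by norm_num)
      (by norm_num) (by norm_num) (by norm_num) (by norm_num)).trans (by norm_num)
  rcases le_total x (-981 / 1000) with h | h9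
  · exact (bound_on (-983 / 1000) (-981 / 1000) x (19 / 1000) (53 / 1000) (1213 / 1000) (by linarith) h (by norm_num) (by norm_num)
      (by norm_num) (by norm_num) (by norm_num) (by norm_num)).trans (by norm_num)
  rcases le_total x (-489 / 500) with h | h10
  · exact (bound_on (-981 / 1000) (-489 / 500) x (11 / 500) (51 / 1000) (1211 / 1000) (by linarith) h (by norm_num) (by norm_num)
      (by norm_num) (by norm_num) (by norm_num) (by norm_num)).trans (by norm_num)
  rcases le_total x (-389 / 400) with h | h11
  · exact (bound_on (-489 / 500) (-389 / 400) x (11 / 400) (6 / 125) (151 / 125) (by linarith) h (by norm_num) (by norm_num)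
      (by norm_num) (by norm_num) (by norm_num) (by norm_num)).trans (by norm_num)
  rcases le_total x (-957 / 1000) with h | h12
  · exact (bound_on (-389 / 400) (-957 / 1000) x (43 / 1000) (17 / 400) (481 / 400) (by linarith) h (by norm_num) (by norm_num)
      (by norm_num) (by norm_num) (by norm_num) (by norm_num)).trans (by norm_num)
  rcases le_total x (-1791 / 2000) with h | h13
  · exact (bound_on (-957 / 1000) (-1791 / 2000) x (209 / 2000) (69 / 2000) (1187 / 1000) (by linarith) h (by norm_num) (by norm_num)
      (by norm_num) (by norm_num) (by norm_num) (by norm_num)).trans (by norm_num)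
  rcases le_total x (-87 / 100) with h | h14
  · exact (bound_on (-1791 / 2000) (-87 / 100) x (13 / 100) (3 / 50) (2251 / 2000) (by linarith) h (by norm_num) (by norm_num)
      (by norm_num) (by norm_num) (by norm_num) (by norm_num)).trans (by norm_num)
  rcases le_total x (-427 / 500) with h | h15
  · exact (bound_on (-87 / 100) (-427 / 500) x (73 / 500) (19 / 250) (11 / 10) (by linarith) h (by norm_num) (by norm_num)
      (by norm_num) (by norm_num) (by norm_num) (by norm_num)).trans (by norm_num)
  rcases le_total x (-337 / 400) with h | h16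
  · exact (bound_on (-427 / 500) (-337 / 400) x (63 / 400) (7 / 80) (271 / 250) (by linarith) h (by norm_num) (by norm_num)
      (by norm_num) (by norm_num) (by norm_num) (by norm_num)).trans (by norm_num)
  rcases le_total x (-333 / 400) with h | h17
  · exact (bound_on (-337 / 400) (-333 / 400) x (67 / 400) (39 / 400) (429 / 400) (by linarith) h (by norm_num) (by norm_num)
      (by norm_num) (by norm_num) (by norm_num) (by norm_num)).trans (by norm_num)
  rcases le_total x (-1647 / 2000) with h | h18
  · exact (bound_on (-333 / 400) (-1647 / 2000) x (353 / 2000) (213 / 2000) (17 / 16) (by linarith) h (by norm_num) (by norm_num)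
      (by norm_num) (by norm_num) (by norm_num) (by norm_num)).trans (by norm_num)
  rcases le_total x (-1629 / 2000) with h | h19
  · exact (bound_on (-1647 / 2000) (-1629 / 2000) x (371 / 2000) (231 / 2000) (2107 / 2000) (by linarith) h (by norm_num) (by norm_num)
      (by norm_num) (by norm_num) (by norm_num) (by norm_num)).trans (by norm_num)
  rcases le_total x (-1609 / 2000) with h | h20
  · exact (bound_on (-1629 / 2000) (-1609 / 2000) x (391 / 2000) (251 / 2000) (2089 / 2000) (by linarith) h (by norm_num) (by norm_num)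
      (by norm_num) (by norm_num) (by norm_num) (by norm_num)).trans (by norm_num)
  rcases le_total x (-317 / 400) with h | h21
  · exact (bound_on (-1609 / 2000) (-317 / 400) x (83 / 400) (11 / 80) (2069 / 2000) (by linarith) h (by norm_num) (by norm_num)
      (by norm_num) (by norm_num) (by norm_num) (by norm_num)).trans (by norm_num)
  rcases le_total x (-97 / 125) with h | h22
  · exact (bound_on (-317 / 400) (-97 / 125) x (28 / 125) (77 / 500) (409 / 400) (by linarith) h (by norm_num) (by norm_num)
      (by norm_num) (by norm_num) (by norm_num) (by norm_num)).trans (by norm_num)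
  rcases le_total x (-751 / 1000) with h | h23
  · exact (bound_on (-97 / 125) (-751 / 1000) x (249 / 1000) (179 / 1000) (503 / 500) (by linarith) h (by norm_num) (by norm_num)
      (by norm_num) (by norm_num) (by norm_num) (by norm_num)).trans (by norm_num)
  rcases le_total x (-88 / 125) with h | h24
  · exact (bound_on (-751 / 1000) (-88 / 125) x (37 / 125) (113 / 500) (981 / 1000) (by linarith) h (by norm_num) (by norm_num)
      (by norm_num) (by norm_num) (by norm_num) (by norm_num)).trans (by norm_num)
  rcases le_total x (-1153 / 2000) with h | h25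
  · exact (bound_on (-88 / 125) (-1153 / 2000) x (847 / 2000) (707 / 2000) (467 / 500) (by linarith) h (by norm_num) (by norm_num)
      (by norm_num) (by norm_num) (by norm_num) (by norm_num)).trans (by norm_num)
  rcases le_total x (23 / 100) with h | h26
  · exact (bound_on (-1153 / 2000) (23 / 100) x (123 / 100) (29 / 25) (1613 / 2000) (by linarith) h (by norm_num) (by norm_num)
      (by norm_num) (by norm_num) (by norm_num) (by norm_num)).trans (by norm_num)
  exact bound_on (23 / 100) 1 x 2 (193 / 100) (77 / 100) (by linarith) h1 (by norm_num)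
    (by norm_num) (by norm_num) (by norm_num) (by norm_num) (by norm_num)

/-- A real polynomial of degree at least one, with all zeros real and in [-1,1], whose maximum
modulus on [-1,1] is attained at 1, but whose derivative is larger in modulus at an interior point
than at both endpoints. -/
theorem result : ∃ Q : ℝ[X], 1 ≤ Q.natDegree ∧ Q.roots.card = Q.natDegree ∧
    (∀ z ∈ Q.roots, z ∈ Set.Icc (-1 : ℝ) 1) ∧
    (∀ x ∈ Set.Icc (-1 : ℝ) 1, |Q.eval x| ≤ |Q.eval 1|) ∧
    ∃ x₀ ∈ Set.Ioo (-1 : ℝ) 1,
      max |Q.derivative.eval (-1)| |Q.derivative.eval 1| < |Q.derivative.eval x₀| := by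
  refine ⟨Q, by rw [Q_natDegree]; norm_num, by rw [Q_natDegree, Q_roots]; simp, ?_,
    fun x hx => dominated x hx.1 hx.2, -199 / 200, ⟨by norm_num, by norm_num⟩, ?_⟩
  · intro z hz
    rw [Q_roots] at hz
    simp only [Multiset.mem_add, Multiset.mem_nsmul, Multiset.mem_singleton] at hz
    rcases hz with (⟨-, rfl⟩ | ⟨-, rfl⟩) | ⟨-, rfl⟩ <;> constructor <;> norm_num
  · rw [Q_deriv_eval, Q_deriv_eval, Q_deriv_eval, max_lt_iff, lt_abs, lt_abs]
    constructor
    · right
      norm_num
    · right
      rw [abs_of_nonneg (by positivity)]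
      norm_num

end Pool.Agent.Results.MP_512501_an.Counterexample
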